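import Pool.Agent.X238.Sums.Sat

/-!
# MP_8027ba_an: the topological types of sums of shrinking compact sets

Every nonempty compact perfect subset of the line is homeomorphic to such a sum set (and nothing
else is).  The proof codes a given nonempty compact perfect set `X` by an explicit recursive map
`Phi X : X → [0, 5]` (continuous and injective) whose image is a union of translates of one fixed
Cantor set `CC` of ratio `1/16`, i.e. equals `B + CC` with `B` compact.
-/

namespace Pool.Agent.Results.MP_8027ba_an.AllPerfectSets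

open Set Filter Topology
open Pool.Agent.X238.Sums
open scoped Classical Pointwise

noncomputable section

/-- The hypotheses on the sequence `(K_i)`: compact sets of nonnegative reals containing `0`, of
positive diameter, with diameters tending to zero, and such that all the series converge. -/
structure Admissible (K : ℕ → Set ℝ) : Prop where
  compact : ∀ i, IsCompact (K i)
  zero : ∀ i, (0 : ℝ) ∈ K i
  nonneg : ∀ i, K i ⊆ Set.Ici 0
  diam_pos : ∀ i, 0 < Metric.diam (K i)
  tendsto : Tendsto (fun i => Metric.diam (K i)) atTop (𝓝 0)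
  summable : Summable (fun i => Metric.diam (K i))

/-- The set of all sums `∑ x_j` with `x_j ∈ K_j`. -/
def SumSet (K : ℕ → Set ℝ) : Set ℝ := {s | ∃ x : ℕ → ℝ, (∀ j, x j ∈ K j) ∧ HasSum x s}

theorem abs_le_diam {K : ℕ → Set ℝ} (h : Admissible K) {i : ℕ} {t : ℝ} (ht : t ∈ K i) :
    |t| ≤ Metric.diam (K i) := by
  have := Metric.dist_le_diam_of_mem (h.compact i).isBounded ht (h.zero i)
  rwa [Real.dist_eq, sub_zero] at this

theorem sumSet_nonempty {K : ℕ → Set ℝ} (h : Admissible K) : (SumSet K).Nonempty :=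
  ⟨0, fun _ => 0, fun j => h.zero j, hasSum_zero⟩

theorem summable_of {K : ℕ → Set ℝ} (h : Admissible K) {x : ℕ → ℝ} (hx : ∀ j, x j ∈ K j) :
    Summable x :=
  Summable.of_norm_bounded h.summable (fun i => abs_le_diam h (hx i))

theorem sumSet_compact {K : ℕ → Set ℝ} (h : Admissible K) : IsCompact (SumSet K) := by
  have h1 : IsCompact (Set.pi univ K) := isCompact_univ_pi h.compact
  have h2 : ContinuousOn (fun x : ℕ → ℝ => ∑' i, x i) (Set.pi univ K) := by
    apply continuousOn_tsum (u := fun i => Metric.diam (K i))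
    · intro i; exact (continuous_apply i).continuousOn
    · exact h.summable
    · intro i x hx
      exact abs_le_diam h (hx i (mem_univ i))
  have h3 : SumSet K = (fun x : ℕ → ℝ => ∑' i, x i) '' (Set.pi univ K) := by
    ext s
    constructor
    · rintro ⟨x, hx, hs⟩
      exact ⟨x, fun i _ => hx i, hs.tsum_eq⟩
    · rintro ⟨x, hx, hs⟩
      refine ⟨x, fun i => hx i (mem_univ i), ?_⟩
      have := (summable_of h (fun i => hx i (mem_univ i))).hasSum
      rwa [show ∑' i, x i = s from hs] at this
  rw [h3]
  exact h1.image_of_continuousOn h2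

theorem sumSet_preperfect {K : ℕ → Set ℝ} (h : Admissible K) : Preperfect (SumSet K) := by
  rintro s ⟨x, hx, hs⟩
  rw [accPt_iff_nhds]
  intro U hU
  obtain ⟨ε, hε, hsub⟩ := Metric.mem_nhds_iff.mp hU
  obtain ⟨j, hj⟩ := (h.tendsto.eventually (gt_mem_nhds hε)).exists
  have h1 : ∃ y ∈ K j, y ≠ x j := by
    by_contra hn
    push Not at hn
    have h2 : (K j).Subsingleton := fun u hu v hv => (hn u hu).trans (hn v hv).symm
    have := Metric.diam_subsingleton h2
    have := h.diam_pos j
    linarith
  obtain ⟨y, hy, hne⟩ := h1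
  have h2 : HasSum (Function.update x j y) (y - x j + s) := hs.update j y
  refine ⟨y - x j + s, ⟨hsub ?_, _, ?_, h2⟩, ?_⟩
  · rw [Metric.mem_ball, Real.dist_eq]
    have h3 : y - x j + s - s = y - x j := by ring
    rw [h3, ← Real.dist_eq]
    exact lt_of_le_of_lt (Metric.dist_le_diam_of_mem (h.compact j).isBounded hy (hx j)) hj
  · intro i
    by_cases hi : i = j
    · subst hi; simpa using hy
    · rw [Function.update_of_ne hi]; exact hx i
  · intro he
    apply hne; linarith

/-- being without isolated points is a topological property -/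
theorem preperfect_of_homeo {X Y : Set ℝ} (e : X ≃ₜ Y) (hY : Preperfect Y) : Preperfect X := by
  intro x hx
  rw [accPt_iff_nhds]
  intro U hU
  by_contra hn
  push Not at hn
  obtain ⟨V, hVU, hV, hxV⟩ := mem_nhds_iff.mp hU
  have h1 : ({⟨x, hx⟩} : Set X) = Subtype.val ⁻¹' V := by
    ext z
    constructor
    · intro hz
      rw [mem_singleton_iff] at hz
      rw [hz]; exact hxV
    · intro hz
      rw [mem_singleton_iff]
      exact Subtype.ext (hn z.1 ⟨hVU hz, z.2⟩)
  have h2 : IsOpen ({⟨x, hx⟩} : Set X) := by rw [h1]; exact hV.preimage continuous_subtype_val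
  have h3 : IsOpen (e '' {⟨x, hx⟩}) := e.isOpenMap _ h2
  rw [image_singleton] at h3
  obtain ⟨O, hO, hOe⟩ := isOpen_induced_iff.mp h3
  have h4 : (e ⟨x, hx⟩ : ℝ) ∈ O := by
    have : e ⟨x, hx⟩ ∈ (Subtype.val ⁻¹' O : Set Y) := by rw [hOe]; exact mem_singleton _
    exact this
  have h5 := hY (e ⟨x, hx⟩ : ℝ) (e ⟨x, hx⟩).2
  rw [accPt_iff_nhds] at h5
  obtain ⟨y, ⟨hyO, hyY⟩, hne⟩ := h5 O (hO.mem_nhds h4)
  have h6 : (⟨y, hyY⟩ : Y) ∈ (Subtype.val ⁻¹' O : Set Y) := hyO
  rw [hOe, mem_singleton_iff] at h6
  apply hne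
  rw [← h6]

/-- the sequence realising `X` -/
def KK (X : Set ℝ) : ℕ → Set ℝ
  | 0 => ((fun u => u - sInf (Bs X)) '' Bs X) + {0, 1}
  | n + 1 => {0, rr ^ (n + 1)}

theorem Bs_nonempty {X : Set ℝ} (hX : Good X) (hne : X.Nonempty) : (Bs X).Nonempty := by
  obtain ⟨x, hx⟩ := hne
  have h := mem_image_of_mem (Phi X) hx
  rw [image_eq hX] at h
  obtain ⟨k, hk, -⟩ := h
  exact ⟨k, hk⟩

theorem KK_adm {X : Set ℝ} (hX : Good X) (hne : X.Nonempty) : Admissible (KK X) := by
  have hB := Bs_compact hX
  have hBn := Bs_nonempty hX hne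
  have hmin : sInf (Bs X) ∈ Bs X := hB.sInf_mem hBn
  have hc : ∀ i, IsCompact (KK X i) := by
    intro i
    cases i with
    | zero =>
      exact (hB.image (continuous_id.sub continuous_const)).add (Set.toFinite {(0:ℝ), 1}).isCompact
    | succ n =>
      have hf : ({0, rr ^ (n + 1)} : Set ℝ).Finite := Set.toFinite _
      exact hf.isCompact
  have h00 : (0 : ℝ) ∈ (fun u => u - sInf (Bs X)) '' Bs X := ⟨sInf (Bs X), hmin, sub_self _⟩
  have h0 : (0 : ℝ) ∈ KK X 0 := ⟨0, h00, 0, by simp, by simp⟩
  have h1 : (1 : ℝ) ∈ KK X 0 := ⟨0, h00, 1, by simp, by simp⟩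
  have hd : ∀ n, Metric.diam (KK X (n + 1)) = rr ^ (n + 1) := by
    intro n
    show Metric.diam {0, rr ^ (n + 1)} = _
    rw [Metric.diam_pair, Real.dist_eq, zero_sub, abs_neg, abs_of_pos (pow_pos rr_pos _)]
  have hsum : Summable (fun i => Metric.diam (KK X i)) := by
    rw [← summable_nat_add_iff 1]
    have : (fun n => Metric.diam (KK X (n + 1))) = fun n => rr ^ (n + 1) := funext hd
    rw [this, summable_nat_add_iff 1]
    exact summable_geo
  refine ⟨hc, ?_, ?_, ?_, hsum.tendsto_atTop_zero, hsum⟩
  · intro i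
    cases i with
    | zero => exact h0
    | succ n => exact Or.inl rfl
  · intro i
    cases i with
    | zero =>
      rintro t ⟨_, ⟨u, hu, rfl⟩, d, hd2, rfl⟩
      have h3 : sInf (Bs X) ≤ u := csInf_le hB.bddBelow hu
      have h4 : 0 ≤ d := by
        rcases hd2 with h | h
        · rw [h]
        · rw [mem_singleton_iff] at h; rw [h]; norm_num
      show (0:ℝ) ≤ u - sInf (Bs X) + d
      linarith
    | succ n =>
      rintro t (h | h)
      · rw [h]; exact mem_Ici.mpr (le_refl _)
      · rw [mem_singleton_iff] at h; rw [h]; exact mem_Ici.mpr (pow_pos rr_pos _).le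
  · intro i
    cases i with
    | zero =>
      have := Metric.dist_le_diam_of_mem (hc 0).isBounded h1 h0
      rw [Real.dist_eq, sub_zero, abs_one] at this
      linarith
    | succ n => rw [hd]; exact pow_pos rr_pos _

/-- auxiliary sequence concentrated at index zero -/
theorem hasSum_zero_index (a : ℝ) : HasSum (fun i : ℕ => if i = 0 then a else 0) a := by
  have := hasSum_ite_eq (0 : ℕ) a
  simpa using this

theorem sumSet_KK {X : Set ℝ} (hX : Good X) (s : ℝ) :
    s ∈ SumSet (KK X) ↔ s + sInf (Bs X) ∈ Phi X '' X := by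
  rw [image_eq hX]
  constructor
  · rintro ⟨x, hx, hs⟩
    obtain ⟨_, ⟨u, hu, rfl⟩, d, hd, h0⟩ := hx 0
    have h0' : x 0 = u - sInf (Bs X) + d := h0.symm
    -- digits
    let e : ℕ → Bool := fun i => match i with
      | 0 => decide (d ≠ 0)
      | (n + 1) => decide (x (n + 1) ≠ 0)
    have he : ∀ i, x i = (if i = 0 then u - sInf (Bs X) else 0) + dg e i := by
      intro i
      cases i with
      | zero =>
        rw [if_pos rfl, h0']
        have h2 : dg e 0 = d := by
          unfold dg
          show (if decide (d ≠ 0) = true then rr ^ 0 else 0) = d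
          rcases hd with h | h
          · rw [h]; simp
          · rw [mem_singleton_iff] at h; rw [h]; simp
        rw [h2]
      | succ n =>
        rw [if_neg (Nat.succ_ne_zero n), zero_add]
        have hxn : x (n + 1) = 0 ∨ x (n + 1) = rr ^ (n + 1) := hx (n + 1)
        unfold dg
        show x (n + 1) = if decide (x (n + 1) ≠ 0) = true then rr ^ (n + 1) else 0
        rcases hxn with h | h
        · rw [h]; simp
        · have h3 : rr ^ (n + 1) ≠ 0 := (pow_pos rr_pos _).ne'
          rw [h]; simp [h3]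
    have h5 : HasSum x (u - sInf (Bs X) + ∑' i, dg e i) := by
      have : x = fun i => (if i = 0 then u - sInf (Bs X) else 0) + dg e i := funext he
      rw [this]
      exact (hasSum_zero_index _).add (summable_dg e).hasSum
    have h6 : s = u - sInf (Bs X) + ∑' i, dg e i := hs.unique h5
    refine ⟨u, hu, ∑' i, dg e i, ⟨e, rfl⟩, ?_⟩
    show u + ∑' i, dg e i = s + sInf (Bs X)
    rw [h6]; ring
  · rintro ⟨u, hu, c, ⟨e, rfl⟩, hs⟩
    have hs' : u + ∑' i, dg e i = s + sInf (Bs X) := hs
    refine ⟨fun i => (if i = 0 then u - sInf (Bs X) else 0) + dg e i, ?_, ?_⟩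
    · intro i
      cases i with
      | zero =>
        refine ⟨u - sInf (Bs X), ⟨u, hu, rfl⟩, dg e 0, ?_, ?_⟩
        · unfold dg
          split_ifs
          · right; simp
          · left; rfl
        · simp
      | succ n =>
        show (if n + 1 = 0 then u - sInf (Bs X) else 0) + dg e (n + 1) = 0 ∨
          (if n + 1 = 0 then u - sInf (Bs X) else 0) + dg e (n + 1) = rr ^ (n + 1)
        rw [if_neg (Nat.succ_ne_zero n), zero_add]
        unfold dg
        split_ifs
        · right; rfl
        · left; rfl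
    · have h6 : s = u - sInf (Bs X) + ∑' i, dg e i := by linarith
      rw [h6]
      exact (hasSum_zero_index _).add (summable_dg e).hasSum

theorem realise {X : Set ℝ} (hX : Good X) : Nonempty (X ≃ₜ SumSet (KK X)) := by
  have : CompactSpace X := isCompact_iff_compactSpace.mp hX.cpt
  let f : X → SumSet (KK X) := fun x => ⟨Phi X x - sInf (Bs X), by
    rw [sumSet_KK hX, sub_add_cancel]; exact mem_image_of_mem _ x.2⟩
  have hf : Continuous f := by
    apply Continuous.subtype_mk
    exact (continuousOn_iff_continuous_restrict.mp (Phi_cont hX)).sub continuous_const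
  have hb : Function.Bijective f := by
    constructor
    · intro x y h
      have h1 : Phi X x - sInf (Bs X) = Phi X y - sInf (Bs X) := congrArg Subtype.val h
      exact Subtype.ext (Phi_inj hX x.2 y.2 (by linarith))
    · rintro ⟨s, hs⟩
      obtain ⟨x, hx, h1⟩ := (sumSet_KK hX s).mp hs
      refine ⟨⟨x, hx⟩, Subtype.ext ?_⟩
      show Phi X x - sInf (Bs X) = s
      rw [h1]; ring
  exact ⟨Continuous.homeoOfEquivCompactToT2 (f := Equiv.ofBijective f hb) hf⟩

/-- A set `X` of reals is homeomorphic to the sum set of some admissible sequence of compact sets if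
and only if `X` is nonempty, compact and perfect. -/
theorem result (X : Set ℝ) :
    (∃ K : ℕ → Set ℝ, Admissible K ∧ Nonempty (X ≃ₜ SumSet K)) ↔
      (X.Nonempty ∧ IsCompact X ∧ Perfect X) := by
  constructor
  · rintro ⟨K, hK, ⟨e⟩⟩
    have hcS := sumSet_compact hK
    have : CompactSpace (SumSet K) := isCompact_iff_compactSpace.mp hcS
    have : CompactSpace X := e.symm.compactSpace
    have hcX : IsCompact X := isCompact_iff_compactSpace.mpr inferInstance
    refine ⟨?_, hcX, hcX.isClosed, preperfect_of_homeo e (sumSet_preperfect hK)⟩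
    obtain ⟨s, hs⟩ := sumSet_nonempty hK
    exact ⟨_, (e.symm ⟨s, hs⟩).2⟩
  · rintro ⟨hne, hc, hp⟩
    have hX : Good X := ⟨hc, hp.acc⟩
    exact ⟨KK X, KK_adm hX hne, realise hX⟩

end

end Pool.Agent.Results.MP_8027ba_an.AllPerfectSets
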